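import Pool.Agent.Work.MP_e693fe_lc.Gen

/-!
MP_e693fe_lc, Q1: no NIP expansion of `(ℕ, <)` interprets an infinite field.  The definitions follow
the problem file.  Author of this file: helper77; the proof of the main step is helper19's
(Work/MP_e693fe_lc/Main.lean).
-/

set_option autoImplicit false

namespace Pool.Agent.Results.MP_e693fe_lc.FieldGivesIP

open FirstOrder FirstOrder.Language

universe u v w z

section Definitions

variable (L : FirstOrder.Language.{u, v}) [L.Structure ℕ]

/-- `M` is the structure on the set `ℕ` for the language `L` (any collection of relation, function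
and constant symbols, of any cardinality).  A set `s` of tuples of natural numbers is definable in
`M`: it is the set of solutions of a first-order formula of `L`, in which elements of `ℕ` may be used
as parameters.  (All uses below are in hypotheses, so allowing parameters makes the theorem
stronger.) -/
def IsDefinable {ι : Type} (s : Set (ι → ℕ)) : Prop :=
  (Set.univ : Set ℕ).Definable L s

/-- `M` is an expansion of `(ℕ, <)`: the usual order is definable in `M`; this is the case when some
binary relation symbol of `L` is interpreted as the usual order. -/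
def ExpandsOrder : Prop :=
  IsDefinable L {v : Fin 2 → ℕ | v 0 < v 1}

/-- For a set `X` of `n`-tuples of natural numbers: the subset `D` of the power `X ^ k` is definable
in `M`, as a set of tuples of `k` times `n` natural numbers. -/
def DefinableInPower {n k : ℕ} {X : Set (Fin n → ℕ)} (D : Set (Fin k → X)) : Prop :=
  IsDefinable L {v : Fin k × Fin n → ℕ | ∃ x ∈ D, ∀ i j, v (i, j) = (x i : Fin n → ℕ) j}

/-- The graph of the binary operation `op` on `X / E` is induced by a definable subset `D` of
`X ^ 3`: it consists of the triples of classes of the elements of `D`. -/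
def DefinableOp {n : ℕ} {X : Set (Fin n → ℕ)} (E : Setoid X)
    (op : Quotient E → Quotient E → Quotient E) : Prop :=
  ∃ D : Set (Fin 3 → X), DefinableInPower L D ∧
    ∀ a b c : Quotient E, op a b = c ↔
      ∃ x ∈ D, Quotient.mk E (x 0) = a ∧ Quotient.mk E (x 1) = b ∧ Quotient.mk E (x 2) = c

/-- The field `K` is interpretable in `M`: there are a definable set `X` of `n`-tuples, a definable
equivalence relation `E` on `X`, and two operations on `X / E` whose graphs are induced by definable
subsets of `X ^ 3`, such that `X / E` with these operations (addition and multiplication) is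
isomorphic to `K`. -/
def Interpretable (K : Type z) [Field K] : Prop :=
  ∃ (n : ℕ) (X : Set (Fin n → ℕ)) (E : Setoid X) (add mul : Quotient E → Quotient E → Quotient E),
    IsDefinable L X ∧ DefinableInPower L {x : Fin 2 → X | E (x 0) (x 1)} ∧
    DefinableOp L E add ∧ DefinableOp L E mul ∧
    ∃ e : Quotient E ≃ K, (∀ a b, e (add a b) = e a + e b) ∧ ∀ a b, e (mul a b) = e a * e b

variable {L}

/-- The formula `φ(x; y)` (`x` an `n`-tuple and `y` an `m`-tuple of variables, no parameters) has the
independence property in `M`: some elementary extension `N` of `M` contains tuples `a i`, for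
`i ∈ ℕ`, and `b S`, for `S ⊆ ℕ`, with `φ(a i; b S)` true exactly when `i ∈ S`. -/
def HasIP {n m : ℕ} (φ : L.Formula (Fin n ⊕ Fin m)) : Prop :=
  ∃ (N : Type w) (_ : L.Structure N) (_ : ℕ ↪ₑ[L] N) (a : ℕ → Fin n → N) (b : Set ℕ → Fin m → N),
    ∀ (i : ℕ) (S : Set ℕ), φ.Realize (Sum.elim (a i) (b S)) ↔ i ∈ S

/-- The finite form of the independence property, in `M` itself: for every `k` there are tuples
`a i`, for `i < k`, and `b S`, for `S` a set of numbers `i < k`, of natural numbers with
`φ(a i; b S)` true exactly when `i ∈ S`; in other words, `φ` has infinite VC dimension in `M`. -/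
def HasFiniteIP {n m : ℕ} (φ : L.Formula (Fin n ⊕ Fin m)) : Prop :=
  ∀ k : ℕ, ∃ (a : Fin k → Fin n → ℕ) (b : Set (Fin k) → Fin m → ℕ),
    ∀ (i : Fin k) (S : Set (Fin k)), φ.Realize (Sum.elim (a i) (b S)) ↔ i ∈ S

end Definitions

/-- Negative answer to Q1.  If an expansion of `(ℕ, <)` interprets an infinite field, then it is not
NIP: some formula has the independence property in it (in the sense of the problem file, and in the
finite form). -/
theorem result (L : FirstOrder.Language.{u, v}) [L.Structure ℕ] (hL : ExpandsOrder L)
    (K : Type z) [Field K] [Infinite K] (hK : Interpretable L K) :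
    ∃ (n m : ℕ) (φ : L.Formula (Fin n ⊕ Fin m)), HasIP.{u, v, w} φ ∧ HasFiniteIP φ := by
  obtain ⟨n, X, E, add, mul, hX, hE, ⟨Da, hDa, ha⟩, ⟨Dm, hDm, hm⟩, e, e1, e2⟩ := hK
  obtain ⟨p, q, φ, hφ⟩ := Pool.Agent.Work.MP_e693fe_lc.Gen.main hL X E add mul hX hE Da Dm hDa hDm
    ha hm e e1 e2
  exact ⟨p, q, φ, Pool.Agent.Work.MP_e693fe_lc.Gen.exists_pattern φ hφ, hφ⟩

end Pool.Agent.Results.MP_e693fe_lc.FieldGivesIP
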